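import Pool.Agent.H80.AutAb.Constrained

set_option autoImplicit false

namespace Pool.Agent.Results.MP_d45cc7_al.AbelianSylow

/-- Let `G` be a finite group and `m` a divisor of `|Aut G|`.  Suppose that for every prime `p`
dividing `m` and `|G|` either the Sylow `p`-subgroups of `G` are abelian, or `G` is
`p`-constrained: for some characteristic `p'`-subgroup `N` of `G` there is a normal `p`-subgroup
`R` of `G / N` which contains its centralizer in `G / N`.  Then `m` divides
`|G / Z(G)| * ∏ |Aut P_p|`.  (For `m = |Aut G|` the conclusion is Neumann's divisibility; for `m` a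
power of a prime `p` only the hypothesis at `p` is needed.) -/
theorem result (G : Type*) [Group G] [Finite G] (m : ℕ) (hm : m ∣ Nat.card (MulAut G))
    (P : ∀ p ∈ (Nat.card G).primeFactors, Sylow p G)
    (hyp : ∀ (p : ℕ) (hp : p ∈ (Nat.card G).primeFactors), p ∣ m →
      (∀ x ∈ P p hp, ∀ y ∈ P p hp, x * y = y * x) ∨
      ∃ N : Subgroup G, N.Characteristic ∧ ∃ _ : N.Normal, (Nat.card N).Coprime p ∧
        ∃ R : Subgroup (G ⧸ N), R.Normal ∧ IsPGroup p R ∧
          Subgroup.centralizer (R : Set (G ⧸ N)) ≤ R) :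
    m ∣ Nat.card (G ⧸ Subgroup.center G) *
        ∏ p : (Nat.card G).primeFactors,
          Nat.card (MulAut (↥(P p.1 p.2 : Subgroup G))) := by
  rw [Nat.dvd_iff_prime_pow_dvd_dvd]
  intro r k hr hk
  rcases Nat.eq_zero_or_pos k with hk0 | hk0
  · subst hk0; simp
  have hrf : Fact r.Prime := ⟨hr⟩
  have hrm : r ∣ m := (dvd_pow_self r hk0.ne').trans hk
  let R : Sylow r (MulAut G) := default
  have h1 : r ^ k ∣ Nat.card R := by
    rw [R.card_eq_multiplicity]
    exact pow_dvd_pow r ((hr.pow_dvd_iff_le_factorization Nat.card_pos.ne').1 (hk.trans hm))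
  refine h1.trans ?_
  by_cases hrG : r ∣ Nat.card G
  · have hrG' : r ∈ (Nat.card G).primeFactors := Nat.mem_primeFactors.2 ⟨hr, hrG, Nat.card_pos.ne'⟩
    rcases hyp r hrG' hrm with hab | ⟨N, hNc, hNn, hNr, Q, hQn, hQp, hQc⟩
    · exact Pool.Agent.H80.AutAb.ppart_abelian r hrG' P hab R R.isPGroup'
    · exact Pool.Agent.H14.rpart_red r hrG' P N hNr
        (fun α T _ hα => Pool.Agent.H80.AutAb.inner_of_constrained Q hQp hQc α T hα)
        R R.isPGroup'
  · exact (Pool.Agent.H14.rpart_coprime r hrG P R R.isPGroup').trans (dvd_mul_left _ _)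

end Pool.Agent.Results.MP_d45cc7_al.AbelianSylow
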