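import Pool.Agent.H14.AutRed

set_option autoImplicit false

namespace Pool.Agent.Results.MP_d45cc7_al.CentralReduction

/-- Let `G` be a finite group and `m` a divisor of `|Aut G|`.  Suppose that for every prime `r`
dividing both `m` and `|G|` there is a characteristic `r'`-subgroup `N` of `G` such that every
automorphism of `G / N` of `r`-power order which fixes some Sylow `r`-subgroup of `G / N`
elementwise is inner.  Then `m` divides `|G / Z(G)| * ∏ |Aut P_p|`.
(For `m = |Aut G|` the conclusion is Neumann's divisibility.) -/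
theorem result (G : Type*) [Group G] [Finite G] (m : ℕ) (hm : m ∣ Nat.card (MulAut G))
    (hyp : ∀ r : ℕ, r.Prime → r ∣ m → r ∣ Nat.card G →
      ∃ N : Subgroup G, N.Characteristic ∧ ∃ _ : N.Normal, (Nat.card N).Coprime r ∧
        ∀ (α : MulAut (G ⧸ N)) (Q : Sylow r (G ⧸ N)), (∃ k : ℕ, α ^ r ^ k = 1) →
          (∀ x ∈ Q, α x = x) → ∃ g : G ⧸ N, α = MulAut.conj g)
    (P : ∀ p ∈ (Nat.card G).primeFactors, Sylow p G) :
    m ∣ Nat.card (G ⧸ Subgroup.center G) *
        ∏ p : (Nat.card G).primeFactors,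
          Nat.card (MulAut (↥(P p.1 p.2 : Subgroup G))) := by
  rw [Nat.dvd_iff_prime_pow_dvd_dvd]
  intro r k hr hk
  rcases Nat.eq_zero_or_pos k with hk0 | hk0
  · subst hk0; simp
  have hrf : Fact r.Prime := ⟨hr⟩
  have hrm : r ∣ m := (dvd_pow_self r hk0.ne').trans hk
  let R : Sylow r (MulAut G) := default
  have h1 : r ^ k ∣ Nat.card R := by
    rw [R.card_eq_multiplicity]
    exact pow_dvd_pow r ((hr.pow_dvd_iff_le_factorization Nat.card_pos.ne').1 (hk.trans hm))
  refine h1.trans ?_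
  by_cases hrG : r ∣ Nat.card G
  · obtain ⟨N, hNc, hNn, hNr, hyp'⟩ := hyp r hr hrm hrG
    exact Pool.Agent.H14.rpart_red r (Nat.mem_primeFactors.2 ⟨hr, hrG, Nat.card_pos.ne'⟩) P N hNr
      hyp' R R.isPGroup'
  · exact (Pool.Agent.H14.rpart_coprime r hrG P R R.isPGroup').trans (dvd_mul_left _ _)

end Pool.Agent.Results.MP_d45cc7_al.CentralReduction
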