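import Pool.Agent.H55.NEUS.Main

set_option autoImplicit false

namespace Pool.Agent.Results.MP_d45cc7_al.SimpleFactors

open Subgroup Pool.NEUS

universe u

/-- Let `G` be a finite group and `m` a divisor of `|Aut G|`. For every prime `p` dividing `m` and
`|G|` let `N` be the greatest normal subgroup of `G` of order prime to `p`, and suppose that every
nonabelian simple group `L = H / Z(H)` of order divisible by `p`, where `H` is a subnormal subgroup
of `G / N`, satisfies one of the following conditions.

* `L` is isomorphic to an alternating group of degree at least `5`.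
* `L` is isomorphic to `PSL(2, F)` for a finite field `F`.
* `|Out(L)|_p * |Z(S)| ≤ |S|` for the Sylow `p`-subgroups `S` of `L` (`|Out(L)|` is the index of
  the group of inner automorphisms, `|·|_p` the `p`-part).
* Every `p`-group `X` of automorphisms of `L` which fixes a Sylow `p`-subgroup `S` of `L` pointwise
  satisfies `|X| ≤ |S|`.

Then `m` divides `|G / Z(G)| * ∏ |Aut P_p|`. -/
theorem result (G : Type u) [Group G] [Finite G] (m : ℕ) (hm : m ∣ Nat.card (MulAut G))
    (hyp : ∀ p : ℕ, p.Prime → p ∣ m → p ∣ Nat.card G →
      ∀ (N : Subgroup G) [N.Normal], IsCore p G N → FactorsGood p (G ⧸ N))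
    (P : ∀ p ∈ (Nat.card G).primeFactors, Sylow p G) :
    m ∣ Nat.card (G ⧸ center G) *
        ∏ p : (Nat.card G).primeFactors,
          Nat.card (MulAut (↥(P p.1 p.2 : Subgroup G))) :=
  Pool.NEUS.main G m hm hyp P

end Pool.Agent.Results.MP_d45cc7_al.SimpleFactors
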