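import Pool.Agent.H14.AutDiv

set_option autoImplicit false

namespace Pool.Agent.Results.MP_d45cc7_al.Soluble

/-- Neumann's divisibility question has a positive answer for every finite soluble group `G`:
`|Aut G|` divides `|G / Z(G)|` times the product of the orders `|Aut P_p|`, where `P_p` is any Sylow
`p`-subgroup of `G` and `p` runs over the primes dividing `|G|`. -/
theorem result (G : Type*) [Group G] [Finite G] [Group.IsSolvable G]
    (P : ∀ p ∈ (Nat.card G).primeFactors, Sylow p G) :
    Nat.card (MulAut G) ∣
      Nat.card (G ⧸ Subgroup.center G) *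
        ∏ p : (Nat.card G).primeFactors,
          Nat.card (MulAut (↥(P p.1 p.2 : Subgroup G))) :=
  Pool.Agent.H14.aut_dvd_of_solvable G P

end Pool.Agent.Results.MP_d45cc7_al.Soluble
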